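import Pool.Graph.R_seed8.TH777.Y.Growth

/-!
# Continuum many functions, each of which grows fast where any finite number of others do not
-/

set_option autoImplicit false

namespace Pool.Agent.KS6_46.YY

open Filter Pool.Agent.TH777.Y

/-- The function given by a set `E` of natural numbers: it jumps at the points `ss t`, `t ∈ E`. -/
noncomputable def fE (E : Set ℕ) (n : ℕ) : ℕ := by
  classical
  exact n + ((Finset.range (n + 1)).filter fun t => ss t ≤ n ∧ t ∈ E).sup fun t => ss (t + 1)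

theorem fE_def (E : Set ℕ) [DecidablePred fun t => t ∈ E] (n : ℕ) : fE E n =
    n + ((Finset.range (n + 1)).filter fun t => ss t ≤ n ∧ t ∈ E).sup fun t => ss (t + 1) := by
  unfold fE
  congr!

theorem fE_strictMono (E : Set ℕ) : StrictMono (fE E) := by
  classical
  refine strictMono_nat_of_lt_succ fun n => ?_
  rw [fE_def, fE_def]
  have : ((Finset.range (n + 1)).filter fun t => ss t ≤ n ∧ t ∈ E).sup
      (fun t => ss (t + 1)) ≤
      ((Finset.range (n + 1 + 1)).filter fun t => ss t ≤ n + 1 ∧ t ∈ E).sup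
      (fun t => ss (t + 1)) := by
    apply Finset.sup_mono
    intro t ht
    simp only [Finset.mem_filter, Finset.mem_range] at ht ⊢
    exact ⟨by omega, by omega, ht.2.2⟩
  omega

theorem fE_mono {E E' : Set ℕ} (h : E ⊆ E') (n : ℕ) : fE E n ≤ fE E' n := by
  classical
  rw [fE_def, fE_def]
  apply Nat.add_le_add_left
  apply Finset.sup_mono
  intro t ht
  simp only [Finset.mem_filter, Finset.mem_range] at ht ⊢
  exact ⟨ht.1, ht.2.1, h ht.2.2⟩

theorem fE_small {E : Set ℕ} {t x : ℕ} (ht : t ∉ E) (hx : x < ss (t + 1)) :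
    fE E x ≤ x + ss t := by
  classical
  rw [fE_def]
  apply Nat.add_le_add_left
  apply Finset.sup_le
  intro t' ht'
  simp only [Finset.mem_filter, Finset.mem_range] at ht'
  have h1 : t' < t + 1 := ss_strictMono.lt_iff_lt.1 (lt_of_le_of_lt ht'.2.1 hx)
  have h2 : t' ≠ t := by
    rintro rfl
    exact ht ht'.2.2
  exact ss_strictMono.monotone (by omega)

theorem fE_large {E : Set ℕ} {t : ℕ} (ht : t ∈ E) : ss (t + 1) ≤ fE E (ss t) := by
  classical
  rw [fE_def]
  refine le_trans ?_ (Nat.le_add_left _ _)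
  refine Finset.le_sup (f := fun t => ss (t + 1)) ?_
  simp only [Finset.mem_filter, Finset.mem_range]
  exact ⟨Nat.lt_succ_of_le (le_ss t), le_rfl, ht⟩

theorem EE_mono {b b' : ℕ → ℕ} {L L' N N' : ℕ} (hb : ∀ i < N' * L', b i ≤ b' i) (hL : L ≤ L')
    (hN : N ≤ N') : EE b L N ≤ EE b' L' N' := by
  unfold EE
  have h1 : N * L ≤ N' * L' := Nat.mul_le_mul hN hL
  refine Nat.mul_le_mul hN (Nat.pow_le_pow_right (by norm_num) ?_)
  refine le_trans (Finset.sum_le_sum (g := b') fun i hi => ?_)
    (Finset.sum_le_sum_of_subset (Finset.range_subset_range.2 h1))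
  exact hb i (lt_of_lt_of_le (Finset.mem_range.1 hi) h1)

theorem EE_iter_mono_left {b : ℕ → ℕ} {L L' N : ℕ} (hL : L ≤ L') (r : ℕ) :
    (EE b L)^[r] N ≤ (EE b L')^[r] N := by
  induction r with
  | zero => exact le_rfl
  | succ r ih =>
    rw [Function.iterate_succ_apply', Function.iterate_succ_apply']
    exact EE_mono (fun _ _ => le_rfl) hL ih

theorem growth_aux {b0 : ℕ → ℕ} {t L : ℕ}
    (hb : ∀ i, 2 ^ (i * i) < ss (t + 1) → b0 i ≤ bb (· + ss t) i) (hL : L ≤ t) (r : ℕ)
    (hr : r ≤ t) :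
    (EE b0 L)^[r] (2 ^ ss t + 1) ≤ (EE (bb (· + ss t)) t)^[r] (2 ^ ss t + 1) := by
  induction r with
  | zero => exact le_rfl
  | succ r ih =>
    have ih := ih (by omega)
    rw [Function.iterate_succ_apply', Function.iterate_succ_apply']
    have hC1 : 1 ≤ (EE (bb (· + ss t)) t)^[r] (2 ^ ss t + 1) :=
      le_trans (Nat.le_add_left 1 _) (le_EE_iter _ _ _ _)
    have hC2 : EE (bb (· + ss t)) t ((EE (bb (· + ss t)) t)^[r] (2 ^ ss t + 1)) < ss (t + 1) := by
      have h1 := EE_iter_mono (b := bb (· + ss t)) (L := t) (2 ^ ss t + 1) hr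
      simp only [Function.iterate_succ_apply'] at h1
      rw [ss_succ]
      omega
    refine EE_mono (fun i hi => hb i ?_) hL ih
    have h2 := EE_lt (b := bb (· + ss t)) hC1 hi
    have h3 : 2 ^ (i * i) ≤ bb (· + ss t) i := by
      show 2 ^ (i * i) ≤ 2 ^ (2 ^ i * (2 ^ (i * i) + ss t))
      have h4 : 2 ^ (i * i) + ss t < 2 ^ (2 ^ (i * i) + ss t) := Nat.lt_two_pow_self
      have h5 : 2 ^ (i * i) + ss t ≤ 2 ^ i * (2 ^ (i * i) + ss t) :=
        Nat.le_mul_of_pos_left _ (by positivity)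
      have h6 : 2 ^ (2 ^ (i * i) + ss t) ≤ 2 ^ (2 ^ i * (2 ^ (i * i) + ss t)) :=
        Nat.pow_le_pow_right (by norm_num) h5
      omega
    omega

/-- The growth condition of the merging lemma, for finitely many other functions. -/
theorem growth {X : Type} (E : X → Set ℕ) (x : X) (Y : Finset X)
    (hE : (E x \ ⋃ y ∈ Y, E y).Infinite) (L r : ℕ) :
    ∃ᶠ n in atTop, (EE (fun i => Y.sup fun y => bb (fE (E y)) i) L)^[r] (2 ^ n + 1) ≤
      fE (E x) n := by
  rw [frequently_atTop]
  intro a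
  obtain ⟨t, ⟨htx, hty⟩, hta⟩ := hE.exists_gt (a + L + r)
  refine ⟨ss t, (by omega : a ≤ t).trans (le_ss _), ?_⟩
  have hty' : ∀ y ∈ Y, t ∉ E y := by
    intro y hy h
    apply hty
    simp only [Set.mem_iUnion, exists_prop]
    exact ⟨y, hy, h⟩
  have h2 := growth_aux (b0 := fun i => Y.sup fun y => bb (fE (E y)) i) (L := L) (t := t) (by
    intro i hi
    refine Finset.sup_le fun y hy => ?_
    apply Nat.pow_le_pow_right (by norm_num)
    apply Nat.mul_le_mul_left
    exact fE_small (hty' y hy) hi) (by omega) r (by omega)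
  have h3 : (EE (bb (· + ss t)) t)^[r] (2 ^ ss t + 1) ≤
      (EE (bb (· + ss t)) t)^[t] (2 ^ ss t + 1) := EE_iter_mono _ (by omega)
  have h4 := fE_large htx
  rw [ss_succ] at h4
  omega

/-- A bound for the chain condition. -/
noncomputable def BB (n : ℕ) : ℕ := (EE (bb (fE Set.univ)) n)^[n] (2 ^ n + 1)

theorem growth_BB (L r : ℕ) :
    ∃ᶠ n in atTop, (EE (bb (fE Set.univ)) L)^[r] (2 ^ n + 1) ≤ BB n := by
  rw [frequently_atTop]
  intro a
  refine ⟨a + L + r, by omega, ?_⟩
  refine (EE_iter_mono_left (by omega : L ≤ a + L + r) r).trans ?_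
  exact EE_iter_mono _ (by omega)

/-! ### An almost disjoint family -/

/-- initial segments of `x` -/
def pre (x : ℕ → Bool) (n : ℕ) : List Bool := (List.range n).map x

theorem length_pre (x : ℕ → Bool) (n : ℕ) : (pre x n).length = n := by simp [pre]

/-- the set of the codes of the initial segments of `x` -/
def Ed (x : ℕ → Bool) : Set ℕ := Set.range fun n => Encodable.encode (pre x n)

theorem Ed_infinite (x : ℕ → Bool) : (Ed x).Infinite := by
  apply Set.infinite_range_of_injective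
  intro m n h
  have := congrArg List.length (Encodable.encode_injective h)
  simpa only [length_pre] using this

theorem Ed_inter {x y : ℕ → Bool} (h : x ≠ y) : (Ed x ∩ Ed y).Finite := by
  obtain ⟨m, hm⟩ := Function.ne_iff.1 h
  refine ((Set.finite_Iic m).image fun n => Encodable.encode (pre x n)).subset ?_
  rintro _ ⟨⟨n, rfl⟩, ⟨n', hn'⟩⟩
  refine ⟨n, ?_, rfl⟩
  have h1 : pre y n' = pre x n := Encodable.encode_injective hn'
  have h2 : n' = n := by
    have := congrArg List.length h1
    simpa only [length_pre] using this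
  subst h2
  by_contra hcon
  have h3 : m < n' := not_le.1 hcon
  apply hm
  unfold pre at h1
  rw [List.map_inj_left] at h1
  exact (h1 m (List.mem_range.2 h3)).symm

theorem Ed_diff (x : ℕ → Bool) (Y : Finset (ℕ → Bool)) (hx : x ∉ Y) :
    (Ed x \ ⋃ y ∈ Y, Ed y).Infinite := by
  intro hfin
  apply Ed_infinite x
  have h1 : (⋃ y ∈ Y, Ed x ∩ Ed y).Finite :=
    Set.Finite.biUnion (Finset.finite_toSet Y) fun y hy => Ed_inter (by
      rintro rfl
      exact hx hy)
  refine (hfin.union h1).subset fun t ht => ?_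
  by_cases h2 : t ∈ ⋃ y ∈ Y, Ed y
  · right
    simp only [Set.mem_iUnion, exists_prop] at h2 ⊢
    obtain ⟨y, hy, hty⟩ := h2
    exact ⟨y, hy, ht, hty⟩
  · exact Or.inl ⟨ht, h2⟩

end Pool.Agent.KS6_46.YY
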