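import Pool.Graph.R_seed8.TH777.Y.Amb

/-!
# The sentence
-/

set_option autoImplicit false

namespace Pool.Agent.KS6_46.YY

open Cardinal Pool.Agent.Helper669.Forcing Pool.Agent.TH777.Y

/-- The combinatorial sentence: for every `x`, some family of functions bounded by `f x` and
indexed by the well-ordered set `K x` is not captured by a slalom of width `2 ^ n`, but for every
proper initial segment `Iio k` of `K x` every family, indexed by `Iio k`, of functions with the
bound `bb (f x)` is captured by a slalom of width `n`, and every family of functions indexed by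
`Iio k` is eventually dominated by one function. -/
def PhiFor {X : Type} (K : X → Type) [∀ x, LinearOrder (K x)] (f : X → ℕ → ℕ) : Prop :=
  ∀ x, NotCap (K x) Unit (f x) ∧ ∀ k : K x, Cap (Set.Iio k) (bb (f x)) ∧ Dom (Set.Iio k)

/-- The translation of `PhiFor` into the forcing language. -/
def PhiHolds (P : Type) [Preorder P] {X : Type} (K : X → Type) [∀ x, LinearOrder (K x)]
    (f : X → ℕ → ℕ) : Set P :=
  fall fun x => fand (NotCapN P (K x) Unit (f x))
    (fall fun k : K x => fand (CapN P (Set.Iio k) (bb (f x))) (DomN P (Set.Iio k)))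

theorem card_le_of_Iio {K : Type} [LinearOrder K] [WellFoundedLT K] {μ : Cardinal.{0}}
    (h : ∀ k : K, #(Set.Iio k) < μ) : #K ≤ μ := by
  by_contra hcon
  push Not at hcon
  have h1 : μ.ord < Ordinal.type (α := K) (· < ·) := by
    refine (ord_lt_ord.2 hcon).trans_le ?_
    rw [ord_le, Ordinal.card_type]
  obtain ⟨k, hk⟩ := Ordinal.typein_surj (α := K) (· < ·) h1
  have h2 := h k
  have h3 : #(Set.Iio k) = μ := by
    have h4 := Ordinal.card_typein (α := K) (r := (· < ·)) k
    rw [hk, card_ord] at h4
    exact h4.symm
  rw [h3] at h2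
  exact lt_irrefl _ h2

/-- The meaning of the sentence for the Yorioka ideals. -/
theorem add_eq {X : Type} (K : X → Type) [∀ x, LinearOrder (K x)] [∀ x, WellFoundedLT (K x)]
    (f : X → ℕ → ℕ) (hf : ∀ x, StrictMono (f x)) (h : PhiFor K f) (x : X) :
    Pool.Agent.H31R3.Yor.add (Pool.Agent.H31R3.Yor.I (f x)) = #(K x) := by
  apply le_antisymm
  · exact notCap_add (hf x) (h x).1
  · exact card_le_of_Iio fun k => cap_add (hf x) ((h x).2 k).1 ((h x).2 k).2

end Pool.Agent.KS6_46.YY
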