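import Pool.Graph.R_seed8.TH777.Y.Book
import Pool.Graph.R_seed8.TH777.Y.Forced
import Pool.Graph.R_seed8.W684.FM.Ambient
import Pool.Agent.KS6_46.YY.Growth
import Pool.Agent.KS6_46.YY.Luz
import Pool.Agent.KS6_46.YY.Sent

/-!
# The forcing
-/

set_option autoImplicit false
set_option linter.unusedSectionVars false

namespace Pool.Agent.KS6_46.YY

open Classical Cardinal Pool.Agent.Helper669.Forcing Pool.Agent.TH777.Y Pool.Agent.W684.FM

theorem mk_Ix' {Z C W Λ : Type} [LinearOrder W] [WellFoundedLT W] (hΛ : ℵ₀ ≤ #Λ) (hZ : #Z ≤ #Λ) (hC : #C ≤ #Λ) (hW : #W ≤ #Λ) :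
    #(Ix Z C W Λ) ≤ #Λ := by
  refine (Cardinal.mk_le_of_injective ixEmb_inj).trans ?_
  simp only [Cardinal.mk_sum, Cardinal.mk_prod, Cardinal.lift_id]
  calc #Z + #C * (#W * #Λ) ≤ #Λ + #Λ * (#Λ * #Λ) :=
        add_le_add hZ (mul_le_mul' hC (mul_le_mul' hW le_rfl))
    _ = #Λ := by rw [mul_eq_self hΛ, mul_eq_self hΛ, add_eq_self hΛ]

theorem mk_NmI' {M Z C W Λ : Type} [LinearOrder W] [WellFoundedLT W] {bdc : C → Option (ℕ → ℕ)} (hM : #M ≤ #Λ) (hΛ : ℵ₀ ≤ #Λ)
    (hΛ2 : #Λ ^ ℵ₀ = #Λ) (hZ : #Z ≤ #Λ) (hC : #C ≤ #Λ) (hW : #W ≤ #Λ) :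
    #(NmI M Z W Λ bdc) ≤ #Λ :=
  mk_Nm hΛ hΛ2 hM (mk_Ix' hΛ hZ hC hW)

/-- The functions. -/
noncomputable def fX (x : ℕ → Bool) : ℕ → ℕ := fE (Ed x)

theorem fX_strictMono (x : ℕ → Bool) : StrictMono (fX x) := fE_strictMono _

/-- Initial segments of the members of the disjoint union. -/
theorem mk_below {X : Type} (K : X → Type) [∀ x, LinearOrder (K x)] (c : Σ x, K x) :
    #{z : Σ x, K x | z < c} ≤ #(Set.Iio c.2) := by
  have h1 : {z : Σ x, K x | z < c} ⊆ (fun k : K c.1 => (⟨c.1, k⟩ : Σ x, K x)) '' Set.Iio c.2 := by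
    rintro ⟨x, k⟩ h
    obtain ⟨x', k'⟩ := c
    cases h with
    | fiber _ _ _ h => exact ⟨k, h, rfl⟩
  exact (mk_le_mk_of_subset h1).trans mk_image_le

theorem exists_forcing (κ : (ℕ → Bool) → Cardinal.{0}) (hκ : ∀ x, ℵ₀ < κ x)
    (hκr : ∀ x, (κ x).IsRegular) :
    ∃ (P : Type) (_ : Preorder P), Nonempty P ∧
    (∀ A : Set P, (∀ p ∈ A, ∀ q ∈ A, p ≠ q → ¬ ∃ r, r ≤ p ∧ r ≤ q) → A.Countable) ∧
    ∀ p : P, p ∈ CardinalsPreserved.{0, 0} P ∧
      p ∈ PhiHolds P (fun x => (κ x).ord.ToType) fX := by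
  let X : Type := ℕ → Bool
  let K : X → Type := fun x => (κ x).ord.ToType
  have hK : ∀ x, #(K x) = κ x := fun x => Cardinal.mk_ord_toType _
  have hKI : ∀ x, ∀ k : K x, #(Set.Iio k) < κ x := fun x k => Cardinal.mk_Iio_toType_ord_lt k
  let M : Type := Σ x, K x
  let W : Type := (Order.succ #M).ord.ToType
  let Λ : Type := Set W
  have hMK : ∀ x, #(K x) ≤ #M := fun x =>
    Cardinal.mk_le_of_injective (f := fun k : K x => (⟨x, k⟩ : M)) sigma_mk_injective
  have hM0 : ℵ₀ < #M := by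
    have := hMK fun _ => false
    rw [hK] at this
    exact (hκ _).trans_le this
  have hW : #W = Order.succ #M := Cardinal.mk_ord_toType _
  have hMW : #M < #W := by
    rw [hW]; exact Order.lt_succ _
  have hW0 : ℵ₀ ≤ #W := (hM0.trans hMW).le
  have hΛ : #Λ = 2 ^ #W := Cardinal.mk_set
  have hWΛ : #W < #Λ := by
    rw [hΛ]; exact Cardinal.cantor _
  have hΛ0 : ℵ₀ ≤ #Λ := hW0.trans hWΛ.le
  have hpow : ∀ a : Cardinal.{0}, a ≠ 0 → a ≤ #W → #Λ ^ a = #Λ := by
    intro a ha0 ha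
    rw [hΛ, ← Cardinal.power_mul, Cardinal.mul_eq_left hW0 ha ha0]
  let bdc : Bool × M → Option (ℕ → ℕ) := fun c => if c.1 then some (bb (fX c.2.1)) else none
  have hC : #(Bool × M) ≤ #Λ := by
    have h1 : #(Bool × M) ≤ #M := by
      rw [mk_prod, lift_id, lift_id]
      calc #Bool * #M ≤ #M * #M := mul_le_mul' ((lt_aleph0_of_finite Bool).trans hM0).le le_rfl
        _ = #M := mul_eq_self hM0.le
    exact h1.trans (hMW.trans hWΛ).le
  have hN : #(NmI M M W Λ bdc) ≤ #Λ :=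
    mk_NmI' (hMW.trans hWΛ).le hΛ0 (hpow _ aleph0_ne_zero hW0) (hMW.trans hWΛ).le hC hWΛ.le
  obtain ⟨e, he⟩ : ∃ e : Λ → (M → NmI M M W Λ bdc), Function.Surjective e := by
    have h1 : #(M → NmI M M W Λ bdc) ≤ #Λ := by
      rw [← Cardinal.power_def]
      conv_rhs => rw [← hpow #M (aleph0_pos.trans hM0).ne' hMW.le]
      exact Cardinal.power_le_power_right hN
    obtain ⟨g⟩ := h1
    have : Nonempty (M → NmI M M W Λ bdc) := ⟨fun _ _ _ => none⟩
    exact ⟨Function.invFun g, Function.invFun_surjective g.injective⟩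
  let act : Bool × M → M → Prop := fun c z => z < c.2
  let nm : Bool × M → Λ → M → NmI M M W Λ bdc := fun _ a z => e a z
  have hG : Good (GI act nm) := good_GI
  have hreqs : ∀ (c : Bool × M) (β : W) (a : Λ),
      #{z : M | (GI act nm).req (.it c β a) z ≠ none} < κ c.2.1 := by
    intro c β a
    refine lt_of_le_of_lt ?_ (hKI c.2.1 c.2.2)
    refine le_trans (mk_le_mk_of_subset ?_) (mk_below K c.2)
    intro z hz
    exact req_small (act := act) (c := c) hz
  -- the Luzin property for all functions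
  have hL : ∀ x, Luz (GI act nm) (κ x) (fX x) fun n => 2 ^ n := by
    intro x
    refine luz' hG (hκr x) (hκ x) (fX x) (fun n => 2 ^ n) ?_
    intro R
    let typ : Ix M (Bool × M) W Λ → Option X := fun j =>
      match j with
      | .co _ => none
      | .it c _ _ => if c.2.1 = x then none else some c.2.1
    obtain ⟨Y, hY⟩ : ∃ Y : Finset X, ∀ y, y ∈ Y ↔ ∃ j ∈ R, typ j = some y := by
      refine ⟨R.biUnion fun j => (typ j).toFinset, fun y => ?_⟩
      simp only [Finset.mem_biUnion, Option.mem_toFinset, Option.mem_def]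
    have hxY : x ∉ Y := by
      intro h
      obtain ⟨j, hj, h1⟩ := (hY x).1 h
      cases j with
      | co z => exact absurd h1 (by simp [typ])
      | it c β a =>
        simp only [typ] at h1
        by_cases h2 : c.2.1 = x
        · rw [if_pos h2] at h1
          exact absurd h1 (by simp)
        · rw [if_neg h2] at h1
          exact h2 (Option.some_injective _ h1)
    refine ⟨fun i => Y.sup fun y => bb (fE (Ed y)) i, ?_, fun L r =>
      growth Ed x Y (Ed_diff x Y hxY) L r⟩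
    intro j hjR b hj
    cases j with
    | co z => exact absurd hj (by simp [bdI])
    | it c β a =>
      obtain ⟨c1, y⟩ := c
      cases c1 with
      | false => exact absurd hj (by simp [bdI, bdc])
      | true =>
        have hb : b = bb (fX y.1) := (Option.some_injective _ hj).symm
        rw [hb]
        by_cases hyx : y.1 = x
        · right
          rw [← hyx]
          exact hreqs (true, y) β a
        · left
          intro i
          have h2 : y.1 ∈ Y := (hY y.1).2 ⟨.it (true, y) β a, hjR, by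
            simp only [typ, if_neg hyx]⟩
          exact Finset.le_sup (f := fun y => bb (fE (Ed y)) i) h2
  have hinj : ∀ x, Function.Injective (fun k : K x => (Ix.co ⟨x, k⟩ : Ix M (Bool × M) W Λ)) := by
    intro m k k' h
    injection h with h
    exact sigma_mk_injective h
  have hLB : Luz (GI act nm) ℵ₁ BB fun n => 2 ^ n := by
    refine luz hG isRegular_aleph_one aleph0_lt_aleph_one (bb (fE Set.univ)) BB _ ?_ growth_BB
    intro j b hj
    cases j with
    | co z => exact absurd hj (by simp [bdI])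
    | it c β a =>
      obtain ⟨c1, y⟩ := c
      cases c1 with
      | false => exact absurd hj (by simp [bdI, bdc])
      | true =>
        have hb : b = bb (fX y.1) := (Option.some_injective _ hj).symm
        rw [hb]
        exact Or.inl (bb_mono (fE_mono (Set.subset_univ _)))
  have hM1 : ℵ₁ ≤ #M := by
    rw [← succ_aleph0, Order.succ_le_iff]
    exact hM0
  have hccc : CCC (GI act nm) :=
    ccc_of_luz hLB (K := M) hM1 (fun z => .co z) (fun z z' h => by injection h) (fun _ => rfl)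
  have hreq : ∀ (c : Bool) (z0 : M) (x : Set.Iio z0.2 → NmI M M W Λ bdc), ∃ (β : W) (a : Λ),
      ∀ k, ∃ z, (GI act nm).req (.it (c, z0) β a) z = some (x k) := by
    intro c z0 x
    obtain ⟨β, hβ⟩ := exists_rank (((hKI z0.1 z0.2).le.trans (hK z0.1).ge).trans (hMK z0.1))
      hM0.le (fun ι hι f => bounded hM0.le hι f) x
    obtain ⟨a, ha⟩ := he fun z => if h : ∃ k : Set.Iio z0.2, z = ⟨z0.1, k.1⟩ then x h.choose
      else fun _ _ => none
    refine ⟨β, a, fun k => ⟨⟨z0.1, k.1⟩, ?_⟩⟩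
    have h1 : nm (c, z0) a ⟨z0.1, k.1⟩ = x k := by
      show e a ⟨z0.1, k.1⟩ = x k
      rw [ha]
      have h : ∃ k' : Set.Iio z0.2, (⟨z0.1, k.1⟩ : M) = ⟨z0.1, k'.1⟩ := ⟨k, rfl⟩
      show (if h : ∃ k' : Set.Iio z0.2, (⟨z0.1, k.1⟩ : M) = ⟨z0.1, k'.1⟩ then x h.choose
        else fun _ _ => none) = x k
      rw [dif_pos h]
      have h3 : k.1 = h.choose.1 := sigma_mk_injective h.choose_spec
      rw [← Subtype.ext h3]
    have h2 : Supp {i | rkI i < (β : WithBot W)} (nm (c, z0) a ⟨z0.1, k.1⟩) := by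
      rw [h1]; exact hβ k
    have h4 : act (c, z0) ⟨z0.1, k.1⟩ := Sigma.LT.fiber z0.1 k.1 z0.2 k.2
    rw [req_it (act := act) (c := (c, z0)) (z := ⟨z0.1, k.1⟩) h4 h2, h1]
  have hccc' : ∀ A : Set (PP (GI act nm)),
      (∀ p ∈ A, ∀ q ∈ A, p ≠ q → ¬ ∃ r, r ≤ p ∧ r ≤ q) → A.Countable := by
    intro A hA
    by_contra hcon
    obtain ⟨p, hp, q, hq, hpq, r, h1, h2⟩ := hccc A hcon
    exact hA p hp q hq hpq ⟨r, h1, h2⟩
  have hP : PCCC (PP (GI act nm)) := hccc'
  refine ⟨PP (GI act nm), inferInstance, ⟨(Cond.one : Cond M (bdI M W Λ bdc))⟩, hccc', ?_⟩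
  intro p
  refine ⟨hP.cardinalsPreserved p, fun x => ⟨?_, fun k => ⟨?_, ?_⟩⟩⟩
  · refine forced_notCap (hL x) (K x) Unit (fun k => .co ⟨x, k⟩) (hinj x) (fun _ => rfl) ?_ p
    intro F
    exact large_fiber (hκr x) (hK x).ge (lt_of_le_of_lt mk_le_aleph0 (hκ x)) F
  · refine forced_cap hG.supp hccc (Set.Iio k) _ (fun y => ?_) p
    obtain ⟨β, a, h⟩ := hreq true ⟨x, k⟩ y
    exact ⟨.it (true, ⟨x, k⟩) β a, rfl, h⟩
  · refine forced_dom hG.supp hccc (Set.Iio k) (fun y => ?_) p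
    obtain ⟨β, a, h⟩ := hreq false ⟨x, k⟩ y
    exact ⟨.it (false, ⟨x, k⟩) β a, rfl, h⟩

end Pool.Agent.KS6_46.YY
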